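import Pool.Agent.K6.H31.XZ.Top

/-!
# The zeros of `Ξ_λ`, `λ < 0`, spread vertically on the scale `|λ| log T`

For every `λ < 0` the proportion of the zeros of `Ξ_λ` with `|Re z| ≤ T` that lie within distance
`β |λ| log T` of the real axis is at most `80000 β` for all large `T`. Hence almost all zeros have
imaginary part of absolute value at least `h(T)` for every function `h(T) = o(log T)`.
-/

set_option autoImplicit false

namespace Pool.Agent.Results.MP_023270_nt.VerticalSpread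

open Filter Topology MeasureTheory

/-- The kernel `Φ(t) = 2 ∑_{n ≥ 1} (2π²n⁴e^{9t/2} - 3πn²e^{5t/2}) e^{-πn²e^{2t}}`. -/
noncomputable def Phi (t : ℝ) : ℝ :=
  2 * ∑' n : ℕ+, (2 * Real.pi ^ 2 * (n : ℝ) ^ 4 * Real.exp (9 * t / 2) -
    3 * Real.pi * (n : ℝ) ^ 2 * Real.exp (5 * t / 2)) *
      Real.exp (-(Real.pi * (n : ℝ) ^ 2 * Real.exp (2 * t)))

/-- The entire function `Ξ_λ(z) = ∫_{-∞}^{∞} Φ(t) e^{λt²} e^{izt} dt`. -/
noncomputable def Xi (lam : ℝ) (z : ℂ) : ℂ :=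
  ∫ t : ℝ, ((Phi t : ℝ) : ℂ) * Complex.exp ((lam : ℂ) * (t : ℂ) ^ 2) *
    Complex.exp (Complex.I * z * (t : ℂ))

/-- The number of zeros of `f` in `S`, counted with multiplicity (an element of `[0, ∞]`):
the sum over the points of `S` of the order of vanishing of `f`. -/
noncomputable def zeroCount (f : ℂ → ℂ) (S : Set ℂ) : ENNReal :=
  ∑' z : S, ((analyticOrderAt f (z : ℂ) : ℕ∞) : ENNReal)

lemma Phi_eq (t : ℝ) : Phi t = Pool.Agent.Helper242.KK.Ph t := by
  unfold Phi Pool.Agent.Helper242.KK.Ph Pool.Agent.Helper242.RK.Phi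
  congr 1
  rw [tsum_pnat_eq_tsum_succ (f := fun n : ℕ => (2 * Real.pi ^ 2 * (n : ℝ) ^ 4 *
    Real.exp (9 * t / 2) - 3 * Real.pi * (n : ℝ) ^ 2 * Real.exp (5 * t / 2)) *
      Real.exp (-(Real.pi * (n : ℝ) ^ 2 * Real.exp (2 * t))))]
  refine tsum_congr fun n => ?_
  push_cast
  rw [show 9 * (t / 2) = 9 * t / 2 by ring, show 5 * (t / 2) = 5 * t / 2 by ring,
    show 4 * (t / 2) = 2 * t by ring]
  ring_nf

lemma Xi_eq (lam : ℝ) : Xi lam = Pool.Agent.Helper242.KK.XiM (-lam) := by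
  funext z
  unfold Xi Pool.Agent.Helper242.KK.XiM Pool.Agent.Helper242.KK.FT Pool.Agent.Helper242.KK.wk
  refine integral_congr_ae (Eventually.of_forall fun t => ?_)
  simp only [Phi_eq]
  push_cast
  rw [neg_neg]

lemma zeroCount_eq (f : ℂ → ℂ) (S : Set ℂ) :
    zeroCount f S = Pool.Agent.Helper242.KK.zc f S := rfl

/-- **Main theorem.** Let `λ < 0` and let `N(T)` be the number of zeros `z` of `Ξ_λ` with
`|Re z| ≤ T`, counted with multiplicity (finite and nonzero for all large `T`).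

* For every `β > 0` and all large `T` at most `80000 β N(T)` of these zeros satisfy
  `|Im z| ≤ β |λ| log T`.
* Consequently, for every function `h` with `h(T) = o(log T)` the proportion of the zeros with
  `|Re z| ≤ T` that satisfy `|Im z| ≤ h(T)` tends to `0` as `T → ∞`. -/
theorem result (lam : ℝ) (hlam : lam < 0) :
    (∀ᶠ T : ℝ in atTop, zeroCount (Xi lam) {z | |z.re| ≤ T} ≠ 0 ∧
      zeroCount (Xi lam) {z | |z.re| ≤ T} ≠ ⊤) ∧
    (∀ β : ℝ, 0 < β → ∀ᶠ T : ℝ in atTop,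
      zeroCount (Xi lam) {z | |z.re| ≤ T ∧ |z.im| ≤ β * |lam| * Real.log T} ≤
        ENNReal.ofReal (80000 * β) * zeroCount (Xi lam) {z | |z.re| ≤ T}) ∧
    (∀ h : ℝ → ℝ, h =o[atTop] Real.log →
      Tendsto (fun T : ℝ => zeroCount (Xi lam) {z | |z.re| ≤ T ∧ |z.im| ≤ h T} /
        zeroCount (Xi lam) {z | |z.re| ≤ T}) atTop (𝓝 0)) := by
  have hμ : 0 < -lam := by linarith
  have habs : |lam| = -lam := abs_of_neg hlam
  rw [Xi_eq, habs]
  refine ⟨?_, fun β hβ => Pool.Agent.K6.H31.XZ.flat_ratio hμ hβ, fun h hh => ?_⟩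
  · obtain ⟨T₀, hT₀⟩ := Pool.Agent.Y971.KK.many_XiM hμ.le
    filter_upwards [eventually_ge_atTop T₀, eventually_ge_atTop 3] with T h1 h2
    refine ⟨fun h0 => ?_, (Pool.Agent.Y971.KK.zc_strip_lt_top hμ.le T).ne⟩
    have h3 := hT₀ T h1
    rw [zeroCount_eq] at h0
    rw [h0, nonpos_iff_eq_zero, ENNReal.ofReal_eq_zero] at h3
    have h4 : 0 < Real.log T := Real.log_pos (by linarith)
    have h5 : 0 < T * Real.log T / 3600 := by positivity
    linarith
  · rw [ENNReal.tendsto_nhds_zero]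
    intro ε hε
    obtain ⟨δ, hδ0, hδ⟩ : ∃ δ : ℝ, 0 < δ ∧ ENNReal.ofReal δ ≤ ε := by
      rcases eq_or_ne ε ⊤ with h | h
      · exact ⟨1, one_pos, by rw [h]; exact le_top⟩
      · exact ⟨ε.toReal, ENNReal.toReal_pos hε.ne' h, (ENNReal.ofReal_toReal h).le⟩
    have hβ : 0 < δ / 80000 := by positivity
    have hsmall := hh.bound (mul_pos hβ hμ)
    filter_upwards [Pool.Agent.K6.H31.XZ.flat_ratio hμ hβ, hsmall, eventually_ge_atTop 1]
      with T h1 h2 h3
    have hl : 0 ≤ Real.log T := Real.log_nonneg h3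
    rw [Real.norm_eq_abs, Real.norm_eq_abs, abs_of_nonneg hl] at h2
    refine ENNReal.div_le_of_le_mul ?_
    refine (Pool.Agent.Helper242.KK.zc_mono _ ?_).trans
      (h1.trans (mul_le_mul' (le_trans (le_of_eq ?_) hδ) le_rfl))
    · rintro z ⟨h4, h5⟩
      exact ⟨h4, h5.trans ((le_abs_self _).trans h2)⟩
    · congr 1
      ring

end Pool.Agent.Results.MP_023270_nt.VerticalSpread
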